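import Pool.Agent.H628_Mirror.FinDir

/-!
# Trapped light has infinitely many directions

For every locally finite family of segment mirrors and every starting point whose component is
unbounded, all but countably many rays are unbounded or have infinitely many directions of flight; a
bounded one then meets two mirrors whose inclinations differ by an irrational multiple of the number pi.
-/

set_option autoImplicit false

open Complex ComplexConjugate Set Filter Topology Pool.Agent.H628_Mirror

namespace Pool.Agent.Results.MP_669c56_pr.FiniteDirections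

theorem result (S : Set (Set ℂ)) (hS : MirrorFamily S) (p : ℂ) (hp : p ∉ ⋃₀ S)
    (hC : ¬ Bornology.IsBounded (connectedComponentIn (⋃₀ S)ᶜ p)) :
    ∃ E : Set ℝ, E.Countable ∧ ∀ α : ℝ, α ∉ E → ¬ Exceptional S p α ∧
      ∀ x d : ℕ → ℂ, IsRay S p α x d → Bornology.IsBounded (Set.range x) →
        (Set.range d).Infinite ∧
        ∃ a b a' b' : ℂ, segment ℝ a b ∈ S ∧ segment ℝ a' b' ∈ S ∧
          (∃ k : ℕ, x (k + 1) ∈ segment ℝ a b) ∧ (∃ k : ℕ, x (k + 1) ∈ segment ℝ a' b') ∧
          ∀ (q : ℚ) (r : ℝ),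
            b' - a' ≠ (r : ℂ) * Complex.exp ((q : ℂ) * Real.pi * Complex.I) * (b - a) := by
  refine ⟨_, finite_directions hS hp hC, ?_⟩
  intro α hα
  simp only [mem_ofPred_eq, not_or] at hα
  obtain ⟨h1, h2⟩ := hα
  refine ⟨h1, fun x d hx hb => ?_⟩
  have h3 : (Set.range d).Infinite := fun hf => h2 ⟨x, d, hx, hb, hf⟩
  refine ⟨h3, ?_⟩
  by_contra hcon
  apply h3
  obtain ⟨a, b, hm, hg⟩ := hS.exists_index
  obtain ⟨m, hT⟩ := traj_of_ray hm hg hp h1 hx
  obtain ⟨R, hR⟩ := hb.subset_closedBall 0
  refine finite_of_commensurable hm hg hT (R := R) (fun k => ?_) ?_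
  · have := hR (mem_range_self k)
    rwa [mem_closedBall_zero_iff] at this
  · intro a₁ b₁ a₂ b₂ g1 g2 g3 g4
    by_contra hno
    push Not at hno
    exact hcon ⟨a₁, b₁, a₂, b₂, g1, g2, g3, g4, hno⟩

end Pool.Agent.Results.MP_669c56_pr.FiniteDirections
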