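import Pool.Agent.H628_Mirror.GenericMain

/-!
# Generic inclinations never trap light

For arbitrary locally finite centres and generic inclinations, from every point whose component is
unbounded almost every light ray is unbounded.
-/

set_option autoImplicit false

open Set Filter MeasureTheory Pool.Agent.H628_Mirror

namespace Pool.Agent.Results.MP_669c56_pr.GenericInclinations

theorem result (ι : Type) (ε : ℝ) (hε : 0 < ε) (c : ι → ℂ)
    (hc : ∀ R : ℝ, {i : ι | ‖c i‖ ≤ R}.Finite) (u v : ι → ℝ) (huv : ∀ i, u i < v i) :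
    ∀ᶠ θ : (i : ι) → Set.Icc (u i) (v i) in residual ((i : ι) → Set.Icc (u i) (v i)), ∀ p : ℂ,
      p ∉ ⋃₀ needles ε c (fun i => (θ i : ℝ)) →
      ¬ Bornology.IsBounded (connectedComponentIn (⋃₀ needles ε c (fun i => (θ i : ℝ)))ᶜ p) →
      ∀ᵐ α : ℝ, ¬ Exceptional (needles ε c (fun i => (θ i : ℝ))) p α ∧
        ¬ Trapped (needles ε c (fun i => (θ i : ℝ))) p α :=
  generic_main hε hc huv

end Pool.Agent.Results.MP_669c56_pr.GenericInclinations
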