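import Pool.Agent.H628_Mirror.Law

/-!
# Independent inclinations with a generic law

Harris's theorem for a dense `G_δ` set of laws of the inclinations, which contains the laws carried by
the rational multiples of the number pi, and for arbitrary random centres.
-/

set_option autoImplicit false

open Set Filter MeasureTheory Pool.Agent.H628_Mirror

namespace Pool.Agent.Results.MP_669c56_pr.GenericLaws

theorem result (ε : ℝ) (hε : 0 < ε) (Ω : Type) [MeasurableSpace Ω] (P : Measure Ω)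
    [IsProbabilityMeasure P] (c : ℕ → Ω → ℂ) (hc : ∀ i, Measurable (c i))
    (hinj : ∀ᵐ ω ∂P, Function.Injective fun i => c i ω)
    (hloc : ∀ᵐ ω ∂P, ∀ R : ℝ, {i : ℕ | ‖c i ω‖ ≤ R}.Finite) :
    ∃ G : Set (ProbabilityMeasure (Set.Ico (0 : ℝ) Real.pi)), IsGδ G ∧ Dense G ∧
      (∀ᵐ t : ℝ, ∀ μ : ProbabilityMeasure (Set.Ico (0 : ℝ) Real.pi),
        (μ : Measure (Set.Ico (0 : ℝ) Real.pi)) {θ | ∃ q : ℚ, (θ : ℝ) = t + q * Real.pi}ᶜ = 0 →
          μ ∈ G) ∧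
      ((∀ i j, i ≠ j → ∀ u v : ℂ, v ≠ 0 → ∀ᵐ ω ∂P, ∀ r : ℝ, c i ω - c j ω ≠ u + r * v) →
        ∀ t : ℝ, ∀ μ : ProbabilityMeasure (Set.Ico (0 : ℝ) Real.pi),
          (μ : Measure (Set.Ico (0 : ℝ) Real.pi)) {θ | ∃ q : ℚ, (θ : ℝ) = t + q * Real.pi}ᶜ = 0 →
            μ ∈ G) ∧
      ∀ μ ∈ G, ∀ᵐ x : Ω × (ℕ → Set.Ico (0 : ℝ) Real.pi)
          ∂(P.prod (Measure.infinitePi fun _ : ℕ => (μ : Measure (Set.Ico (0 : ℝ) Real.pi)))),
        ∀ p : ℂ, p ∉ ⋃₀ needles ε (fun i => c i x.1) (fun i => (x.2 i : ℝ)) →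
          ¬ Bornology.IsBounded (connectedComponentIn
            (⋃₀ needles ε (fun i => c i x.1) (fun i => (x.2 i : ℝ)))ᶜ p) →
          ∀ᵐ α : ℝ, ¬ Exceptional (needles ε (fun i => c i x.1) (fun i => (x.2 i : ℝ))) p α ∧
            ¬ Trapped (needles ε (fun i => c i x.1) (fun i => (x.2 i : ℝ))) p α := by
  have h1 : ∀ᵐ t : ℝ, ∀ μ : ProbabilityMeasure (Set.Ico (0 : ℝ) Real.pi),
      (μ : Measure (Set.Ico (0 : ℝ) Real.pi)) (rotSet t)ᶜ = 0 → μ ∈ goodLaws ε P hc := by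
    filter_upwards [ae_rotGood ε hc hinj] with t ht μ hμ
    exact mem_goodLaws hε hc ht hμ
  refine ⟨goodLaws ε P hc, isGδ_goodLaws ε hc, ?_, h1, ?_, fun μ hμ => laws_main hε hc hloc hμ⟩
  · obtain ⟨t, ht⟩ := h1.exists
    obtain ⟨g1, g2, g3⟩ := dense_rotSet t
    exact (dense_laws g1 g2 g3).mono ht
  · intro hl t μ hμ
    exact mem_goodLaws hε hc (ae_rotGood_of_lines ε hl t) hμ

end Pool.Agent.Results.MP_669c56_pr.GenericLaws
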