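import Pool.Agent.H628_Mirror.TwoDirMain

/-!
# Mirrors in two skew directions

The mirrors are parallel to `f`, or to `g`, or perpendicular to `g`, the angle between `f` and `g` being
arbitrary. Light trapped in an unbounded component then meets a mirror parallel to `f` whose two
extension rays are both trapped, or hit an end point or a crossing of mirrors.
-/

set_option autoImplicit false

open Complex ComplexConjugate Set Filter Topology Pool.Agent.H628_Mirror

namespace Pool.Agent.Results.MP_669c56_pr.SkewMirrors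

theorem result (S : Set (Set ℂ)) (hS : MirrorFamily S) (f g : ℂ)
    (hdir : ∀ a b : ℂ, segment ℝ a b ∈ S → (∃ r : ℝ, b - a = r * f) ∨ (∃ r : ℝ, b - a = r * g) ∨
      ∃ r : ℝ, b - a = r * (Complex.I * g))
    (hdis : ∀ a b : ℂ, segment ℝ a b ∈ S → (∃ r : ℝ, b - a = r * f) → ∀ m ∈ S,
      m ≠ segment ℝ a b → Disjoint (segment ℝ a b) m)
    (p : ℂ) (hp : p ∉ ⋃₀ S) (hC : ¬ Bornology.IsBounded (connectedComponentIn (⋃₀ S)ᶜ p)) :
    ∃ E : Set ℝ, E.Countable ∧ ∀ α : ℝ, α ∉ E → ¬ Exceptional S p α ∧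
      ∀ x d : ℕ → ℂ, IsRay S p α x d → Bornology.IsBounded (Set.range x) →
        ∃ a b : ℂ, segment ℝ a b ∈ S ∧ (∃ r : ℝ, b - a = r * f) ∧
          (∃ k : ℕ, x (k + 1) ∈ segment ℝ a b) ∧
          ¬ Escapes S b (((‖b - a‖ : ℝ) : ℂ)⁻¹ * (b - a)) ∧
          ¬ Escapes S a (((‖a - b‖ : ℝ) : ℂ)⁻¹ * (a - b)) :=
  two_directions hS hdir hdis hp hC

end Pool.Agent.Results.MP_669c56_pr.SkewMirrors
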